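import Pool.Agent.Helper52.ES.Spec2

set_option autoImplicit false

/-! # Module MEM2: polynomial time of the data of the selection problem of EXACT EUCLIDEAN TSP -/

namespace Pool.Agent.Helper26.ES

open Pool.Agent.Helper52.ES
open Pool.Agent.Helper58 Pool.Agent.Helper53.CL Function
open Pool.Agent.Helper52.Grid
open Pool.Agent.Helper52.ETSP (nrm Instance)
open Pool.Agent.Helper99.ETSP (conv raw)

namespace MEM2

variable {γ : Type} [Enc γ]

theorem pbin_val {f : γ → Wr ℕ} (hf : PTf f) : PBin (fun x => (f x).val) := hf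

theorem ptf_wite {p : γ → Prop} [DecidablePred p] {f g : γ → ℕ}
    (hp : PTf (fun x => decide (p x))) (hf : PBin f) (hg : PBin g) :
    PBin (fun x => if p x then f x else g x) := by
  have h : PTf (fun x => if p x then (⟨f x⟩ : Wr ℕ) else ⟨g x⟩) := PTf.ite hp hf hg
  refine h.congr fun x => ?_
  by_cases hx : p x <;> simp [hx]

/-- integers with wrapped absolute value -/
abbrev WZ := Bool × Wr ℕ

/-- wrapped data of an integer -/
def wz (z : ℤ) : WZ := (decide (z < 0), ⟨z.natAbs⟩)

/-- wrapped data of the points -/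
def wl (I : Instance) : List (WZ × WZ) := (List.ofFn I.pt).map fun p => (wz p.1, wz p.2)

theorem enc_wz (z : ℤ) : enc (wz z) = enc (decide (z < 0), z.natAbs.bits) := by
  show DTree.cons (enc (decide (z < 0))) (enc (⟨z.natAbs⟩ : Wr ℕ)) =
    DTree.cons (enc (decide (z < 0))) (enc z.natAbs.bits)
  have h : enc (⟨z.natAbs⟩ : Wr ℕ) = enc z.natAbs.bits := Helper99.ETSP.conv_nat z.natAbs
  rw [h]

theorem enc_map_eq {α β δ : Type} [Enc β] [Enc δ] (f : α → β) (g : α → δ)
    (h : ∀ a, enc (f a) = enc (g a)) (l : List α) : enc (l.map f) = enc (l.map g) := by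
  induction l with
  | nil => rfl
  | cons a l ih =>
    rw [List.map_cons, List.map_cons, enc_lcons, enc_lcons, h a, ih]

theorem enc_wl (I : Instance) : enc (wl I) = enc (raw I).1 := by
  unfold wl raw
  refine enc_map_eq _ _ (fun p => ?_) _
  show DTree.cons (enc (wz p.1)) (enc (wz p.2)) = DTree.cons _ _
  rw [enc_wz, enc_wz]

/-- distance of two integers from their wrapped data -/
def dz (a b : WZ) : ℕ :=
  if a.1 = b.1 then (a.2.val - b.2.val) + (b.2.val - a.2.val) else a.2.val + b.2.val

theorem dz_eq (a b : ℤ) : dz (wz a) (wz b) = (a - b).natAbs := by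
  unfold dz wz
  simp only [decide_eq_decide]
  split_ifs with h
  · omega
  · omega

theorem pbin_dz (hB : BNS) {a b : γ → WZ} (ha : PTf a) (hb : PTf b) :
    PBin (fun x => dz (a x) (b x)) := by
  have h1 : PBin (fun x => (a x).2.val) := pbin_val (f := fun x => (a x).2) (by fun_prop)
  have h2 : PBin (fun x => (b x).2.val) := pbin_val (f := fun x => (b x).2) (by fun_prop)
  unfold dz
  refine ptf_wite (by fun_prop) ?_ (hB.add _ _ _ h1 h2)
  exact hB.add _ _ _ (hB.sub _ _ _ h1 h2) (hB.sub _ _ _ h2 h1)

/-- the vector of two points -/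
def vz (p q : WZ × WZ) : Wr (ℕ × ℕ) := ⟨(dz p.1 q.1, dz p.2 q.2)⟩

theorem vecT_eq (I : Instance) : (vecT I).map (fun a => (⟨a⟩ : Wr (ℕ × ℕ))) =
    ((wl I).flatMap fun p => (wl I).map fun q => vz p q) ++
      List.replicate ((wl I).length * (wl I).length) (⟨(0, 0)⟩ : Wr (ℕ × ℕ)) := by
  have hlen : (wl I).length = I.n := by unfold wl; simp
  rw [hlen]
  unfold vecT wl
  rw [List.map_append, List.map_replicate]
  congr 1
  rw [List.map_flatMap, List.flatMap_map]
  congr 1
  funext p
  rw [List.map_map, List.map_map]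
  apply List.map_congr_left
  intro q _
  simp only [Function.comp_apply, vz, dz_eq]

theorem ptf_wl {f : γ → Instance} (hf : PTf (fun x => raw (f x))) : PTf (fun x => wl (f x)) :=
  (PTf.fst hf).recode (i := fun c => c) (fun _ => rfl) (fun x => enc_wl (f x))

theorem mod_eq (n u : ℕ) (hu : u < n) : (u + 1) % n = if u + 1 = n then 0 else u + 1 := by
  split_ifs with h
  · rw [h, Nat.mod_self]
  · exact Nat.mod_eq_of_lt (by omega)

/-- the verifier without the modulus -/
def ver' (n : ℕ) (w : List Bool) : Bool :=
  (List.range n).all (fun t =>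
    decide (((List.range n).filter fun a => w.getD (n * n + (t * n + a)) false).length = 1) &&
    decide (((List.range n).filter fun a => w.getD (n * n + (a * n + t)) false).length = 1) &&
    (List.range n).all (fun b => decide (w.getD (t * n + b) false =
      (List.range n).any (fun u => w.getD (n * n + (u * n + t)) false &&
        w.getD (n * n + ((if u + 1 = n then 0 else u + 1) * n + b)) false))))

theorem ver_eq (I : Instance) (w : List Bool) : verT (I, w) = ver' I.n w := by
  unfold verT ver'
  simp only [eT, pT]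
  congr 1
  funext t
  congr 1
  congr 1
  funext b
  have h : (List.range I.n).any (fun u => w.getD (I.n * I.n + (u * I.n + t)) false &&
      w.getD (I.n * I.n + ((u + 1) % I.n * I.n + b)) false) =
      (List.range I.n).any (fun u => w.getD (I.n * I.n + (u * I.n + t)) false &&
        w.getD (I.n * I.n + ((if u + 1 = I.n then 0 else u + 1) * I.n + b)) false) := by
    rw [Bool.eq_iff_iff, List.any_eq_true, List.any_eq_true]
    constructor
    · rintro ⟨u, hu, h⟩
      refine ⟨u, hu, ?_⟩
      rwa [← mod_eq _ _ (List.mem_range.mp hu)]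
    · rintro ⟨u, hu, h⟩
      refine ⟨u, hu, ?_⟩
      rwa [mod_eq _ _ (List.mem_range.mp hu)]
  rw [h]
  cases w.getD (t * I.n + b) false <;> cases (List.range I.n).any (fun u =>
    w.getD (I.n * I.n + (u * I.n + t)) false &&
        w.getD (I.n * I.n + ((if u + 1 = I.n then 0 else u + 1) * I.n + b)) false) <;> rfl

theorem ptf_ver {n : γ → ℕ} {w : γ → List Bool} (hn : PTf n) (hw : PTf w) :
    PTf (fun x => ver' (n x) (w x)) := by
  unfold ver'
  fun_prop

end MEM2

open MEM2 in
/-- (MEM2) -/
theorem mem2 : specMEM2 := by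
  intro hL hB
  refine ⟨?_, ?_, ?_⟩
  · rw [hL, wr_list]
    have h1 : PTf (fun x : Wr Instance => raw x.val) := by
      rw [← wr_raw]
      exact PTf.id
    have h2 : PTf (fun x : Wr Instance => wl x.val) := ptf_wl h1
    have h3 : PTf (fun q : (Wr Instance × (WZ × WZ)) × (WZ × WZ) => vz q.1.2 q.2) := by
      unfold vz
      rw [wr_pair]
      refine PTf.pair ?_ ?_
      · exact pbin_dz hB (a := fun q : (Wr Instance × (WZ × WZ)) × (WZ × WZ) => q.1.2.1)
          (b := fun q : (Wr Instance × (WZ × WZ)) × (WZ × WZ) => q.2.1) (by fun_prop) (by fun_prop)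
      · exact pbin_dz hB (a := fun q : (Wr Instance × (WZ × WZ)) × (WZ × WZ) => q.1.2.2)
          (b := fun q : (Wr Instance × (WZ × WZ)) × (WZ × WZ) => q.2.2) (by fun_prop) (by fun_prop)
    have h4 : PTf (fun x : Wr Instance =>
        ((wl x.val).flatMap fun p => (wl x.val).map fun q => vz p q) ++
      List.replicate ((wl x.val).length * (wl x.val).length) (⟨(0, 0)⟩ : Wr (ℕ × ℕ))) := by
      refine PTf.append ?_ ?_
      · refine PTf.flatMap h2 ?_
        have h5 : PTf (fun y : Wr Instance × (WZ × WZ) => wl y.1.val) :=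
          PTf.comp (g := fun x : Wr Instance => wl x.val) h2 (PTf.fst PTf.id)
        exact PTf.map h5 h3
      · fun_prop
    exact h4.congr fun x => vecT_eq x.val
  · rw [hL, wr_nat_bits]
    have h1 : PTf (fun x : Wr Instance => raw x.val) := by
      rw [← wr_raw]
      exact PTf.id
    exact PTf.snd h1
  · rw [hL, wr_bool]
    have h0 : PTf (fun x : Wr (Instance × List Bool) =>
        ((⟨x.val.1⟩ : Wr Instance), (⟨x.val.2⟩ : Wr (List Bool)))) := by
      rw [← wr_pair]
      exact PTf.id
    have h1 : PTf (fun x : Wr (Instance × List Bool) => raw x.val.1) := by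
      rw [← wr_raw]
      exact PTf.fst h0
    have h2 : PTf (fun x : Wr (Instance × List Bool) => x.val.2) := by
      rw [← wr_bits]
      exact PTf.snd h0
    have h3 : PTf (fun x : Wr (Instance × List Bool) => (wl x.val.1).length) :=
      PTf.length (ptf_wl h1)
    have h4 : PTf (fun x : Wr (Instance × List Bool) => ver' (wl x.val.1).length x.val.2) :=
      ptf_ver h3 h2
    refine h4.congr fun x => ?_
    have hlen : (wl x.val.1).length = x.val.1.n := by unfold wl; simp
    rw [hlen]
    exact ver_eq x.val.1 x.val.2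

end Pool.Agent.Helper26.ES
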