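import Pool.Agent.Helper52.ES.Spec2

set_option autoImplicit false

/-! # Module PTV: the vertices and the forced pairs are computable in polynomial time -/

namespace Pool.Agent.Helper26.ES

open Pool.Agent.Helper52.ES
open Pool.Agent.Helper58 Pool.Agent.Helper53.CL Function
open Pool.Agent.Helper52.Grid

variable {γ : Type} [Enc γ]

@[fun_prop] theorem ptf_K0 {d : γ → Dat} (hd : PTf d) : PTf (fun x => (par (d x)).K0) := by
  have h1 : PTf (fun a => (d a).1.1.length) :=
    PTf.length (α := Option (ℕ × Bool)) (l := fun a => (d a).1.1) (by fun_prop)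
  show PTf (fun x => 5 + 4 * (d x).1.1.length)
  fun_prop

@[fun_prop] theorem ptf_rows {d : γ → Dat} (hd : PTf d) : PTf (fun x => (par (d x)).rows) := by
  show PTf (fun x => 2 * (d x).1.2 + 1)
  fun_prop

@[fun_prop] theorem ptf_e {d : γ → Dat} (hd : PTf d) : PTf (fun x => (par (d x)).e) := by
  show PTf (fun x => (d x).2.1)
  fun_prop

@[fun_prop] theorem ptf_h {d : γ → Dat} {x y : γ → ℕ} (hd : PTf d) (hx : PTf x) (hy : PTf y) :
    PTf (fun a => (par (d a)).h (x a) (y a)) := by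
  have h1 : PTf (fun a => hC (d a).1.1 (d a).1.2 (x a) (y a)) :=
    ptf_hC (s := fun a => (d a).1.1) (M := fun a => (d a).1.2) (by fun_prop) (by fun_prop) hx hy
  have h2 : PTf (fun a => if x a < (par (d a)).K0 then hC (d a).1.1 (d a).1.2 (x a) (y a)
      else if x a = (par (d a)).K0 ∧ (y a = 3 ∨ (4 ≤ y a ∧ (y a - 4) % 6 = 3 ∧
        (y a - 4) / 6 < (par (d a)).rows)) then 0
      else 4) := by fun_prop
  exact h2

@[fun_prop] theorem ptf_v {d : γ → Dat} {x y : γ → ℕ} (hd : PTf d) (hx : PTf x) (hy : PTf y) :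
    PTf (fun a => (par (d a)).v (x a) (y a)) := by
  have h1 : PTf (fun a => vC (d a).1.1 (d a).1.2 (x a) (y a)) :=
    ptf_vC (s := fun a => (d a).1.1) (M := fun a => (d a).1.2) (by fun_prop) (by fun_prop) hx hy
  have h2 : PTf (fun a => if x a < (par (d a)).K0 then vC (d a).1.1 (d a).1.2 (x a) (y a)
      else if x a = (par (d a)).K0 then
        (if 4 ≤ y a ∧ (y a - 4) / 6 < (par (d a)).rows ∧ 1 ≤ (y a - 4) % 6 ∧
          (y a - 4) % 6 ≤ 4 then 0 else 4)
      else if x a = (par (d a)).K0 + 1 then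
        (if 3 ≤ y a ∧ (y a - 1) / 6 % 2 = 0 ∧ (y a - 1) / 6 ≤ 2 * (d a).1.2 then 0 else 4)
      else 4) := by fun_prop
  exact h2

@[fun_prop] theorem ptf_hub {d : γ → Dat} {x y : γ → ℕ} (hd : PTf d) (hx : PTf x) (hy : PTf y) :
    PTf (fun a => (par (d a)).hub (x a) (y a)) := by
  unfold Par.hub
  fun_prop

@[fun_prop] theorem ptf_fd {d : γ → Dat} {x y : γ → ℕ} (hd : PTf d) (hx : PTf x) (hy : PTf y) :
    PTf (fun a => (par (d a)).fd (x a) (y a)) := by
  unfold Par.fd
  fun_prop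

@[fun_prop] theorem ptf_st {d : γ → Dat} {x y c : γ → ℕ} (hd : PTf d) (hx : PTf x) (hy : PTf y)
    (hc : PTf c) : PTf (fun a => (par (d a)).st (x a) (y a) (c a)) := by
  unfold Par.st
  fun_prop

@[fun_prop] theorem ptf_vcell {d : γ → Dat} {x y : γ → ℕ} (hd : PTf d) (hx : PTf x) (hy : PTf y) :
    PTf (fun a => (par (d a)).vcell (x a) (y a)) := by
  unfold Par.vcell
  fun_prop

@[fun_prop] theorem ptf_fcell {d : γ → Dat} {x y : γ → ℕ} (hd : PTf d) (hx : PTf x) (hy : PTf y) :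
    PTf (fun a => (par (d a)).fcell (x a) (y a)) := by
  unfold Par.fcell
  fun_prop

/-! ### the comparisons in binary -/

theorem pbin_val {f : γ → Wr ℕ} (hf : PTf f) : PBin (fun x => (f x).val) := hf

theorem ptf_row {d : γ → Dat} {i : γ → ℕ} (hd : PTf d) (hi : PTf i) :
    PTf (fun a => row (d a).2.2 (i a)) := by
  unfold row
  fun_prop

theorem pbin_A {d : γ → Dat} {i : γ → ℕ} (hd : PTf d) (hi : PTf i) :
    PBin (fun a => (par (d a)).A (i a)) := by
  have h := ptf_row hd hi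
  exact pbin_val (f := fun a => (row (d a).2.2 (i a)).1) (by fun_prop)

theorem pbin_C {d : γ → Dat} {i : γ → ℕ} (hd : PTf d) (hi : PTf i) :
    PBin (fun a => (par (d a)).C (i a)) := by
  have h := ptf_row hd hi
  exact pbin_val (f := fun a => (row (d a).2.2 (i a)).2.1) (by fun_prop)

theorem pbin_R {d : γ → Dat} {i : γ → ℕ} (hd : PTf d) (hi : PTf i) :
    PBin (fun a => (par (d a)).R (i a)) := by
  have h := ptf_row hd hi
  exact pbin_val (f := fun a => (row (d a).2.2 (i a)).2.2) (by fun_prop)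

theorem ptf_wite {p : γ → Prop} [DecidablePred p] {f g : γ → ℕ}
    (hp : PTf (fun x => decide (p x))) (hf : PBin f) (hg : PBin g) :
    PBin (fun x => if p x then f x else g x) := by
  have h : PTf (fun x => if p x then (⟨f x⟩ : Wr ℕ) else ⟨g x⟩) := PTf.ite hp hf hg
  refine h.congr fun x => ?_
  by_cases hx : p x <;> simp [hx]

theorem pbin_r2 (hB : BNS) {d : γ → Dat} {i c : γ → ℕ} (hd : PTf d) (hi : PTf i) (hc : PTf c) :
    PBin (fun a => (par (d a)).r2 (i a) (c a)) := by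
  unfold Par.r2
  refine ptf_wite (by fun_prop) (hB.sub _ _ _ (pbin_R hd hi) (pbin_C hd hi)) ?_
  exact ptf_wite (by fun_prop) (hB.add _ _ _ (pbin_R hd hi) (pbin_C hd hi)) (pbin_A hd hi)

theorem ptf_cn (hB : BNS) {d : γ → Dat} {i c k : γ → ℕ} (hd : PTf d) (hi : PTf i) (hc : PTf c)
    (hk : PTf k) : PTf (fun a => (par (d a)).cn (i a) (c a) (k a)) := by
  have h1 := pbin_r2 hB hd hi hc
  have h2 : PTf (fun a => !decide (6 * 2 ^ (k a + 1) ≤ 5 * (par (d a)).r2 (i a) (c a))) := by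
    refine PTf.not (hB.le _ _ _ ?_ ?_)
    · exact hB.mul _ _ _ (hB.un _ _ (PTf.const 6)) (hB.two _ _ (by fun_prop))
    · exact hB.mul _ _ _ (hB.un _ _ (PTf.const 5)) h1
  refine h2.congr fun a => ?_
  rw [← decide_not]
  exact decide_eq_decide.mpr not_le.symm

theorem ptf_fst (hB : BNS) {d : γ → Dat} {i c k : γ → ℕ} (hd : PTf d) (hi : PTf i) (hc : PTf c)
    (hk : PTf k) : PTf (fun a => (par (d a)).fst' (i a) (c a) (k a)) := by
  have h1 := pbin_r2 hB hd hi hc
  unfold Par.fst'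
  refine hB.le _ _ _ ?_ ?_
  · exact hB.mul _ _ _ (hB.un _ _ (PTf.const 6)) (hB.two _ _ (by fun_prop))
  · exact hB.mul _ _ _ (hB.un _ _ (PTf.const 5)) h1

theorem ptf_varm (hB : BNS) {d : γ → Dat} {i c : γ → ℕ} (hd : PTf d) (hi : PTf i) (hc : PTf c) :
    PTf (fun a => (par (d a)).varm (i a) (c a)) := by
  have h1 : PTf (fun q : γ × ℕ => (par (d q.1)).cn (i q.1) (c q.1) q.2) :=
    ptf_cn hB (d := fun q : γ × ℕ => d q.1) (i := fun q : γ × ℕ => i q.1)
      (c := fun q : γ × ℕ => c q.1) (k := fun q : γ × ℕ => q.2) (by fun_prop) (by fun_prop)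
      (by fun_prop) (by fun_prop)
  unfold Par.varm
  fun_prop

theorem ptf_farm (hB : BNS) {d : γ → Dat} {i c : γ → ℕ} (hd : PTf d) (hi : PTf i) (hc : PTf c) :
    PTf (fun a => (par (d a)).farm (i a) (c a)) := by
  have h1 : PTf (fun q : γ × ℕ => (par (d q.1)).cn (i q.1) (c q.1) q.2) :=
    ptf_cn hB (d := fun q : γ × ℕ => d q.1) (i := fun q : γ × ℕ => i q.1)
      (c := fun q : γ × ℕ => c q.1) (k := fun q : γ × ℕ => q.2) (by fun_prop) (by fun_prop)
      (by fun_prop) (by fun_prop)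
  have h2 : PTf (fun q : γ × ℕ => (par (d q.1)).fst' (i q.1) (c q.1) q.2) :=
    ptf_fst hB (d := fun q : γ × ℕ => d q.1) (i := fun q : γ × ℕ => i q.1)
      (c := fun q : γ × ℕ => c q.1) (k := fun q : γ × ℕ => q.2) (by fun_prop) (by fun_prop)
      (by fun_prop) (by fun_prop)
  unfold Par.farm
  fun_prop

/-- (PTV) -/
theorem ptv (hB : specBN) : specPTV := by
  intro γ _ d hd
  constructor
  · have h1 : PTf (fun q : (γ × ℕ) × ℕ => (par (d q.1.1)).varm q.1.2 q.2) :=
      ptf_varm hB (d := fun q : (γ × ℕ) × ℕ => d q.1.1) (i := fun q : (γ × ℕ) × ℕ => q.1.2)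
        (c := fun q : (γ × ℕ) × ℕ => q.2) (by fun_prop) (by fun_prop) (by fun_prop)
    unfold Par.V
    refine PTf.append ?_ ?_
    · fun_prop
    · refine PTf.flatMap (by fun_prop) ?_
      exact PTf.flatMap (by fun_prop) h1
  · have h1 : PTf (fun q : (γ × ℕ) × ℕ => (par (d q.1.1)).farm q.1.2 q.2) :=
      ptf_farm hB (d := fun q : (γ × ℕ) × ℕ => d q.1.1) (i := fun q : (γ × ℕ) × ℕ => q.1.2)
        (c := fun q : (γ × ℕ) × ℕ => q.2) (by fun_prop) (by fun_prop) (by fun_prop)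
    unfold Par.FL
    refine PTf.append ?_ ?_
    · fun_prop
    · refine PTf.flatMap (by fun_prop) ?_
      exact PTf.flatMap (by fun_prop) h1

end Pool.Agent.Helper26.ES
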